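import Pool.Agent.Lib.MP_d55432_al.SIX.Iface

/-!
# PAR3, part 1: comparison of degrees
-/

namespace Pool.Agent.Lib.MP_d55432_al.SIX.H23

open Matrix MvPolynomial

section Lt

variable {τ K : Type*} [Field K] (m : MonomialOrder τ)

/-- `f` is zero or of degree less than `d`. -/
def Lt (f : MvPolynomial τ K) (d : m.syn) : Prop := f = 0 ∨ m.toSyn (m.degree f) < d

/-- `f` is of degree at most `d`. -/
def Le (f : MvPolynomial τ K) (d : m.syn) : Prop := m.toSyn (m.degree f) ≤ d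

variable {m} {f g : MvPolynomial τ K} {d e : m.syn}

theorem Lt.zero : Lt m (0 : MvPolynomial τ K) d := Or.inl rfl

theorem Lt.le (h : Lt m f d) : Le m f d := by
  rcases h with rfl | h
  · unfold Le
    rw [m.degree_zero, map_zero]
    exact bot_le
  · exact le_of_lt h

theorem Le.add (hf : Le m f d) (hg : Le m g d) : Le m (f + g) d :=
  m.degree_add_le.trans (sup_le hf hg)

theorem Le.sub (hf : Le m f d) (hg : Le m g d) : Le m (f - g) d :=
  m.degree_sub_le.trans (sup_le hf hg)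

theorem Le.mul (hf : Le m f d) (hg : Le m g e) : Le m (f * g) (d + e) := by
  unfold Le at *
  refine le_trans m.degree_mul_le ?_
  rw [map_add]
  exact add_le_add hf hg

theorem Lt.add (hf : Lt m f d) (hg : Lt m g d) : Lt m (f + g) d := by
  rcases hf with rfl | hf
  · rwa [zero_add]
  rcases hg with rfl | hg
  · rw [add_zero]; exact Or.inr hf
  exact Or.inr (lt_of_le_of_lt m.degree_add_le (max_lt hf hg))

theorem Lt.neg (hf : Lt m f d) : Lt m (-f) d := by
  rcases hf with rfl | hf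
  · rw [neg_zero]; exact Lt.zero
  · right; rwa [m.degree_neg]

theorem Lt.sub (hf : Lt m f d) (hg : Lt m g d) : Lt m (f - g) d := by
  rw [sub_eq_add_neg]; exact hf.add hg.neg

theorem Lt.mul_le (hf : Lt m f d) (hg : Le m g e) : Lt m (f * g) (d + e) := by
  rcases hf with rfl | hf
  · rw [zero_mul]; exact Lt.zero
  · right
    refine lt_of_le_of_lt m.degree_mul_le ?_
    rw [map_add]
    exact add_lt_add_of_lt_of_le hf hg

theorem Lt.le_mul (hf : Le m f d) (hg : Lt m g e) : Lt m (f * g) (d + e) := by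
  rw [mul_comm, add_comm]; exact hg.mul_le hf

theorem Lt.of_eq_or (h : f = g ∨ f = -g) (hg : Lt m g d) : Lt m f d := by
  rcases h with rfl | rfl
  · exact hg
  · exact hg.neg

theorem Lt.sum {ι : Type*} (s : Finset ι) (u : ι → MvPolynomial τ K)
    (h : ∀ i ∈ s, Lt m (u i) d) : Lt m (∑ i ∈ s, u i) d := by
  classical
  induction s using Finset.induction_on with
  | empty => rw [Finset.sum_empty]; exact Lt.zero
  | insert a s ha ih =>
    rw [Finset.sum_insert ha]
    exact (h a (Finset.mem_insert_self _ _)).add (ih fun i hi => h i (Finset.mem_insert_of_mem hi))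

theorem degree_add_Lt (hf : f ≠ 0) (hg : Lt m g (m.toSyn (m.degree f))) :
    m.degree (f + g) = m.degree f ∧ f + g ≠ 0 := by
  rcases hg with rfl | hg
  · rw [add_zero]; exact ⟨rfl, hf⟩
  · have h1 := m.degree_add_of_lt hg
    refine ⟨h1, fun h => ?_⟩
    rw [h, m.degree_zero] at h1
    rw [← h1, map_zero] at hg
    exact absurd hg (not_lt.2 bot_le)

/-- Sums of squares with a maximal term. -/
theorem max_squares {ι : Type*} [Fintype ι] (g : ι → MvPolynomial τ K)
    (hd : ∀ i j, g i ≠ 0 → g j ≠ 0 → i ≠ j → m.degree (g i) ≠ m.degree (g j))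
    (hs : ∃ i, g i ≠ 0) :
    ∃ i, g i ≠ 0 ∧ (∀ j, j ≠ i → Lt m (g j) (m.toSyn (m.degree (g i)))) ∧
      m.degree (∑ j, g j ^ 2) = 2 • m.degree (g i) ∧ ∑ j, g j ^ 2 ≠ 0 := by
  classical
  obtain ⟨i, hi, hmax⟩ := Finset.exists_max_image (Finset.univ.filter (fun i => g i ≠ 0))
    (fun i => m.toSyn (m.degree (g i)))
    (by obtain ⟨i, hi⟩ := hs; exact ⟨i, Finset.mem_filter.2 ⟨Finset.mem_univ _, hi⟩⟩)
  have hi0 : g i ≠ 0 := (Finset.mem_filter.1 hi).2
  have hlt : ∀ j, j ≠ i → Lt m (g j) (m.toSyn (m.degree (g i))) := by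
    intro j hj
    by_cases h0 : g j = 0
    · exact Or.inl h0
    right
    refine lt_of_le_of_ne (hmax j (Finset.mem_filter.2 ⟨Finset.mem_univ _, h0⟩)) ?_
    intro h
    exact hd j i h0 hi0 hj (m.toSyn.injective h)
  have hsq : m.degree (g i ^ 2) = 2 • m.degree (g i) := m.degree_pow _ _
  have hrest : Lt m (∑ j ∈ Finset.univ.erase i, g j ^ 2) (m.toSyn (m.degree (g i ^ 2))) := by
    apply Lt.sum
    intro j hj
    have h1 := hlt j (Finset.ne_of_mem_erase hj)
    rw [hsq, two_nsmul, map_add, sq]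
    exact h1.mul_le h1.le
  rw [← Finset.add_sum_erase _ _ (Finset.mem_univ i)]
  obtain ⟨h1, h2⟩ := degree_add_Lt (pow_ne_zero 2 hi0) hrest
  exact ⟨i, hi0, hlt, by rw [h1, hsq], h2⟩

/-- The key estimate: an entry of maximal degree and the complementary Pfaffian of maximal degree
cannot occur together. -/
theorem key (x : M6 (MvPolynomial τ K)) (a b c d e f : Fin 6) (D1 D2 : m.syn)
    (hβ0 : x a b ≠ 0) (hβ : m.toSyn (m.degree (x a b)) = D1)
    (hP0 : pf4 x c d e f ≠ 0) (hP : m.toSyn (m.degree (pf4 x c d e f)) = D2)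
    (h1 : ∀ i j : Fin 6, ((i, j) ≠ (a, b) ∧ (i, j) ≠ (b, a)) → Lt m (x i j) D1)
    (ha : a ≠ c ∧ a ≠ d ∧ a ≠ e ∧ a ≠ f) (hb : b ≠ c ∧ b ≠ d ∧ b ≠ e ∧ b ≠ f)
    (ycd : Lt m (pf4 x a b c d) D2) (yce : Lt m (pf4 x a b c e) D2)
    (ycf : Lt m (pf4 x a b c f) D2) (yde : Lt m (pf4 x a b d e) D2)
    (ydf : Lt m (pf4 x a b d f) D2) (yef : Lt m (pf4 x a b e f) D2) : False := by
  have h1' : ∀ i j : Fin 6, (a ≠ i ∧ b ≠ i) ∨ (a ≠ j ∧ b ≠ j) → Lt m (x i j) D1 := by
    intro i j h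
    apply h1
    constructor
    · rintro h2
      rw [Prod.mk.injEq] at h2
      rcases h with h | h
      · exact h.1 h2.1.symm
      · exact h.2 h2.2.symm
    · rintro h2
      rw [Prod.mk.injEq] at h2
      rcases h with h | h
      · exact h.2 h2.1.symm
      · exact h.1 h2.2.symm
  have hβle : Le m (x a b) D1 := hβ.le
  have hle : ∀ i j : Fin 6, (a ≠ i ∧ b ≠ i) → (a ≠ j ∧ b ≠ j) →
      Le m (pf4 x a b i j) (D1 + D1) := by
    intro i j hi hj
    unfold pf4
    refine Le.add (Le.sub (hβle.mul (h1' i j (Or.inl hi)).le)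
      ((h1' a i (Or.inr hi)).le.mul (h1' b j (Or.inr hj)).le))
      ((h1' a j (Or.inr hj)).le.mul (h1' b i (Or.inr hi)).le)
  have hm : ∀ i j : Fin 6, (a ≠ i ∧ b ≠ i) → (a ≠ j ∧ b ≠ j) →
      Lt m (x a i * x b j - x a j * x b i) (D1 + D1) := by
    intro i j hi hj
    exact Lt.sub ((h1' a i (Or.inr hi)).mul_le (h1' b j (Or.inr hj)).le)
      ((h1' a j (Or.inr hj)).mul_le (h1' b i (Or.inr hi)).le)
  have hc : a ≠ c ∧ b ≠ c := ⟨ha.1, hb.1⟩
  have hd : a ≠ d ∧ b ≠ d := ⟨ha.2.1, hb.2.1⟩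
  have he : a ≠ e ∧ b ≠ e := ⟨ha.2.2.1, hb.2.2.1⟩
  have hf : a ≠ f ∧ b ≠ f := ⟨ha.2.2.2, hb.2.2.2⟩
  have hid : pf4 x c d e f * (x a b * x a b) =
      (pf4 x a b c d * pf4 x a b e f - pf4 x a b c e * pf4 x a b d f +
        pf4 x a b c f * pf4 x a b d e) +
      ((pf4 x a b c d * (x a e * x b f - x a f * x b e) -
        pf4 x a b c e * (x a d * x b f - x a f * x b d) +
        pf4 x a b c f * (x a d * x b e - x a e * x b d)) +
      ((pf4 x a b e f * (x a c * x b d - x a d * x b c) -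
        pf4 x a b d f * (x a c * x b e - x a e * x b c)) +
        pf4 x a b d e * (x a c * x b f - x a f * x b c))) := by
    simp only [pf4]; ring
  have hR : Lt m (pf4 x c d e f * (x a b * x a b)) (D2 + (D1 + D1)) := by
    rw [hid]
    refine Lt.add (Lt.add (Lt.sub (ycd.mul_le (hle e f he hf)) (yce.mul_le (hle d f hd hf)))
      (ycf.mul_le (hle d e hd he))) (Lt.add (Lt.add (Lt.sub (ycd.mul_le (hm e f he hf).le)
      (yce.mul_le (hm d f hd hf).le)) (ycf.mul_le (hm d e hd he).le))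
      (Lt.add (Lt.sub (yef.mul_le (hm c d hc hd).le) (ydf.mul_le (hm c e hc he).le))
      (yde.mul_le (hm c f hc hf).le)))
  rcases hR with hR | hR
  · exact mul_ne_zero hP0 (mul_ne_zero hβ0 hβ0) hR
  · rw [m.degree_mul hP0 (mul_ne_zero hβ0 hβ0), m.degree_mul hβ0 hβ0, map_add, map_add, hβ,
      hP] at hR
    exact lt_irrefl _ hR

end Lt

end Pool.Agent.Lib.MP_d55432_al.SIX.H23
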