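import Pool.Agent.Lib.MP_d55432_al.SIX.H23.Lt
import Pool.Agent.Lib.MP_d55432_al.Sp4Dichotomy

/-!
# PAR3, part 2: algebraic independence of the three invariants
-/

namespace Pool.Agent.Lib.MP_d55432_al.SIX.H23

open Matrix MvPolynomial

/-- First element of the pair number `k`. -/
def pp : Fin 15 → Fin 6 := ![0, 0, 0, 0, 0, 1, 1, 1, 1, 2, 2, 2, 3, 3, 4]

/-- Second element of the pair number `k`. -/
def qq : Fin 15 → Fin 6 := ![1, 2, 3, 4, 5, 2, 3, 4, 5, 3, 4, 5, 4, 5, 5]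

/-- The complement of the pair number `k`. -/
def co : Fin 15 → Fin 4 → Fin 6 :=
  ![![2, 3, 4, 5], ![1, 3, 4, 5], ![1, 2, 4, 5], ![1, 2, 3, 5], ![1, 2, 3, 4], ![0, 3, 4, 5], ![0, 2, 4, 5], ![0, 2, 3, 5], ![0, 2, 3, 4], ![0, 1, 4, 5], ![0, 1, 3, 5], ![0, 1, 3, 4], ![0, 1, 2, 5], ![0, 1, 2, 4], ![0, 1, 2, 3]]

/-- The Pfaffian complementary to the pair number `k`. -/
def GG {A : Type*} [CommRing A] (x : M6 A) (k : Fin 15) : A :=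
  pf4 x (co k 0) (co k 1) (co k 2) (co k 3)

theorem pair_cases : ∀ i j : Fin 6, i < j → ∃ k, pp k = i ∧ qq k = j := by decide

theorem pp_ne_qq : ∀ k, pp k ≠ qq k := by decide

theorem co_ne : ∀ k, (pp k ≠ co k 0 ∧ pp k ≠ co k 1 ∧ pp k ≠ co k 2 ∧ pp k ≠ co k 3) ∧
    (qq k ≠ co k 0 ∧ qq k ≠ co k 1 ∧ qq k ≠ co k 2 ∧ qq k ≠ co k 3) := by decide

theorem sg_or (s i j : Fin 6) : sgI s i * sgI s j = 1 ∨ sgI s i * sgI s j = -1 := by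
  unfold sgI
  split_ifs <;> simp

theorem sg_co : ∀ (s : Fin 6) (k : Fin 15),
    sgI s (co k 0) * sgI s (co k 1) * sgI s (co k 2) * sgI s (co k 3) =
      -(sgI s (pp k) * sgI s (qq k)) := by decide

theorem sg_all : ∀ s : Fin 6,
    sgI s 0 * sgI s 1 * sgI s 2 * sgI s 3 * sgI s 4 * sgI s 5 = -1 := by decide

theorem sg_out : ∀ k l : Fin 15, ∃ s : Fin 6,
    sgI s (pp k) * sgI s (qq k) = 1 ∧ sgI s (pp l) * sgI s (qq l) = 1 := by decide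

theorem sg_in : ∀ k l : Fin 15, k ≠ l → ∃ s : Fin 6,
    sgI s (pp k) * sgI s (qq k) = -1 ∧ sgI s (pp l) * sgI s (qq l) = 1 := by decide

section ring

variable {A : Type*} [CommRing A]

theorem s1_eq (x : M6 A) : s1 x = ∑ k, x (pp k) (qq k) ^ 2 := by
  simp only [Fin.sum_univ_succ, Fin.sum_univ_zero]
  simp [s1, pp, qq]
  ring

theorem s2_eq (x : M6 A) : s2 x = ∑ k, GG x k ^ 2 := by
  rw [s2, s1_eq]
  refine Finset.sum_congr rfl fun k _ => ?_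
  fin_cases k <;> simp [sharpM, pp, qq, GG, co]

variable (x : M6 A) (hx : ∀ i j, x j i = -x i j)

include hx

theorem yk_0 : pf4 x 0 1 2 3 = pf4 x 0 1 2 3 ∧
    pf4 x 0 1 2 4 = pf4 x 0 1 2 4 ∧
    pf4 x 0 1 2 5 = pf4 x 0 1 2 5 ∧
    pf4 x 0 1 3 4 = pf4 x 0 1 3 4 ∧
    pf4 x 0 1 3 5 = pf4 x 0 1 3 5 ∧
    pf4 x 0 1 4 5 = pf4 x 0 1 4 5 := by
  refine ⟨?_, ?_, ?_, ?_, ?_, ?_⟩ <;> (simp only [pf4, hx 0 1, hx 0 2, hx 0 3, hx 0 4, hx 0 5, hx 1 2, hx 1 3, hx 1 4,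
    hx 1 5, hx 2 3, hx 2 4, hx 2 5, hx 3 4, hx 3 5, hx 4 5]; try ring)

theorem yk_1 : pf4 x 0 2 1 3 = -pf4 x 0 1 2 3 ∧
    pf4 x 0 2 1 4 = -pf4 x 0 1 2 4 ∧
    pf4 x 0 2 1 5 = -pf4 x 0 1 2 5 ∧
    pf4 x 0 2 3 4 = pf4 x 0 2 3 4 ∧
    pf4 x 0 2 3 5 = pf4 x 0 2 3 5 ∧
    pf4 x 0 2 4 5 = pf4 x 0 2 4 5 := by
  refine ⟨?_, ?_, ?_, ?_, ?_, ?_⟩ <;> (simp only [pf4, hx 0 1, hx 0 2, hx 0 3, hx 0 4, hx 0 5, hx 1 2, hx 1 3, hx 1 4,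
    hx 1 5, hx 2 3, hx 2 4, hx 2 5, hx 3 4, hx 3 5, hx 4 5]; try ring)

theorem yk_2 : pf4 x 0 3 1 2 = pf4 x 0 1 2 3 ∧
    pf4 x 0 3 1 4 = -pf4 x 0 1 3 4 ∧
    pf4 x 0 3 1 5 = -pf4 x 0 1 3 5 ∧
    pf4 x 0 3 2 4 = -pf4 x 0 2 3 4 ∧
    pf4 x 0 3 2 5 = -pf4 x 0 2 3 5 ∧
    pf4 x 0 3 4 5 = pf4 x 0 3 4 5 := by
  refine ⟨?_, ?_, ?_, ?_, ?_, ?_⟩ <;> (simp only [pf4, hx 0 1, hx 0 2, hx 0 3, hx 0 4, hx 0 5, hx 1 2, hx 1 3, hx 1 4,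
    hx 1 5, hx 2 3, hx 2 4, hx 2 5, hx 3 4, hx 3 5, hx 4 5]; try ring)

theorem yk_3 : pf4 x 0 4 1 2 = pf4 x 0 1 2 4 ∧
    pf4 x 0 4 1 3 = pf4 x 0 1 3 4 ∧
    pf4 x 0 4 1 5 = -pf4 x 0 1 4 5 ∧
    pf4 x 0 4 2 3 = pf4 x 0 2 3 4 ∧
    pf4 x 0 4 2 5 = -pf4 x 0 2 4 5 ∧
    pf4 x 0 4 3 5 = -pf4 x 0 3 4 5 := by
  refine ⟨?_, ?_, ?_, ?_, ?_, ?_⟩ <;> (simp only [pf4, hx 0 1, hx 0 2, hx 0 3, hx 0 4, hx 0 5, hx 1 2, hx 1 3, hx 1 4,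
    hx 1 5, hx 2 3, hx 2 4, hx 2 5, hx 3 4, hx 3 5, hx 4 5]; try ring)

theorem yk_4 : pf4 x 0 5 1 2 = pf4 x 0 1 2 5 ∧
    pf4 x 0 5 1 3 = pf4 x 0 1 3 5 ∧
    pf4 x 0 5 1 4 = pf4 x 0 1 4 5 ∧
    pf4 x 0 5 2 3 = pf4 x 0 2 3 5 ∧
    pf4 x 0 5 2 4 = pf4 x 0 2 4 5 ∧
    pf4 x 0 5 3 4 = pf4 x 0 3 4 5 := by
  refine ⟨?_, ?_, ?_, ?_, ?_, ?_⟩ <;> (simp only [pf4, hx 0 1, hx 0 2, hx 0 3, hx 0 4, hx 0 5, hx 1 2, hx 1 3, hx 1 4,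
    hx 1 5, hx 2 3, hx 2 4, hx 2 5, hx 3 4, hx 3 5, hx 4 5]; try ring)

theorem yk_5 : pf4 x 1 2 0 3 = pf4 x 0 1 2 3 ∧
    pf4 x 1 2 0 4 = pf4 x 0 1 2 4 ∧
    pf4 x 1 2 0 5 = pf4 x 0 1 2 5 ∧
    pf4 x 1 2 3 4 = pf4 x 1 2 3 4 ∧
    pf4 x 1 2 3 5 = pf4 x 1 2 3 5 ∧
    pf4 x 1 2 4 5 = pf4 x 1 2 4 5 := by
  refine ⟨?_, ?_, ?_, ?_, ?_, ?_⟩ <;> (simp only [pf4, hx 0 1, hx 0 2, hx 0 3, hx 0 4, hx 0 5, hx 1 2, hx 1 3, hx 1 4,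
    hx 1 5, hx 2 3, hx 2 4, hx 2 5, hx 3 4, hx 3 5, hx 4 5]; try ring)

theorem yk_6 : pf4 x 1 3 0 2 = -pf4 x 0 1 2 3 ∧
    pf4 x 1 3 0 4 = pf4 x 0 1 3 4 ∧
    pf4 x 1 3 0 5 = pf4 x 0 1 3 5 ∧
    pf4 x 1 3 2 4 = -pf4 x 1 2 3 4 ∧
    pf4 x 1 3 2 5 = -pf4 x 1 2 3 5 ∧
    pf4 x 1 3 4 5 = pf4 x 1 3 4 5 := by
  refine ⟨?_, ?_, ?_, ?_, ?_, ?_⟩ <;> (simp only [pf4, hx 0 1, hx 0 2, hx 0 3, hx 0 4, hx 0 5, hx 1 2, hx 1 3, hx 1 4,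
    hx 1 5, hx 2 3, hx 2 4, hx 2 5, hx 3 4, hx 3 5, hx 4 5]; try ring)

theorem yk_7 : pf4 x 1 4 0 2 = -pf4 x 0 1 2 4 ∧
    pf4 x 1 4 0 3 = -pf4 x 0 1 3 4 ∧
    pf4 x 1 4 0 5 = pf4 x 0 1 4 5 ∧
    pf4 x 1 4 2 3 = pf4 x 1 2 3 4 ∧
    pf4 x 1 4 2 5 = -pf4 x 1 2 4 5 ∧
    pf4 x 1 4 3 5 = -pf4 x 1 3 4 5 := by
  refine ⟨?_, ?_, ?_, ?_, ?_, ?_⟩ <;> (simp only [pf4, hx 0 1, hx 0 2, hx 0 3, hx 0 4, hx 0 5, hx 1 2, hx 1 3, hx 1 4,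
    hx 1 5, hx 2 3, hx 2 4, hx 2 5, hx 3 4, hx 3 5, hx 4 5]; try ring)

theorem yk_8 : pf4 x 1 5 0 2 = -pf4 x 0 1 2 5 ∧
    pf4 x 1 5 0 3 = -pf4 x 0 1 3 5 ∧
    pf4 x 1 5 0 4 = -pf4 x 0 1 4 5 ∧
    pf4 x 1 5 2 3 = pf4 x 1 2 3 5 ∧
    pf4 x 1 5 2 4 = pf4 x 1 2 4 5 ∧
    pf4 x 1 5 3 4 = pf4 x 1 3 4 5 := by
  refine ⟨?_, ?_, ?_, ?_, ?_, ?_⟩ <;> (simp only [pf4, hx 0 1, hx 0 2, hx 0 3, hx 0 4, hx 0 5, hx 1 2, hx 1 3, hx 1 4,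
    hx 1 5, hx 2 3, hx 2 4, hx 2 5, hx 3 4, hx 3 5, hx 4 5]; try ring)

theorem yk_9 : pf4 x 2 3 0 1 = pf4 x 0 1 2 3 ∧
    pf4 x 2 3 0 4 = pf4 x 0 2 3 4 ∧
    pf4 x 2 3 0 5 = pf4 x 0 2 3 5 ∧
    pf4 x 2 3 1 4 = pf4 x 1 2 3 4 ∧
    pf4 x 2 3 1 5 = pf4 x 1 2 3 5 ∧
    pf4 x 2 3 4 5 = pf4 x 2 3 4 5 := by
  refine ⟨?_, ?_, ?_, ?_, ?_, ?_⟩ <;> (simp only [pf4, hx 0 1, hx 0 2, hx 0 3, hx 0 4, hx 0 5, hx 1 2, hx 1 3, hx 1 4,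
    hx 1 5, hx 2 3, hx 2 4, hx 2 5, hx 3 4, hx 3 5, hx 4 5]; try ring)

theorem yk_10 : pf4 x 2 4 0 1 = pf4 x 0 1 2 4 ∧
    pf4 x 2 4 0 3 = -pf4 x 0 2 3 4 ∧
    pf4 x 2 4 0 5 = pf4 x 0 2 4 5 ∧
    pf4 x 2 4 1 3 = -pf4 x 1 2 3 4 ∧
    pf4 x 2 4 1 5 = pf4 x 1 2 4 5 ∧
    pf4 x 2 4 3 5 = -pf4 x 2 3 4 5 := by
  refine ⟨?_, ?_, ?_, ?_, ?_, ?_⟩ <;> (simp only [pf4, hx 0 1, hx 0 2, hx 0 3, hx 0 4, hx 0 5, hx 1 2, hx 1 3, hx 1 4,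
    hx 1 5, hx 2 3, hx 2 4, hx 2 5, hx 3 4, hx 3 5, hx 4 5]; try ring)

theorem yk_11 : pf4 x 2 5 0 1 = pf4 x 0 1 2 5 ∧
    pf4 x 2 5 0 3 = -pf4 x 0 2 3 5 ∧
    pf4 x 2 5 0 4 = -pf4 x 0 2 4 5 ∧
    pf4 x 2 5 1 3 = -pf4 x 1 2 3 5 ∧
    pf4 x 2 5 1 4 = -pf4 x 1 2 4 5 ∧
    pf4 x 2 5 3 4 = pf4 x 2 3 4 5 := by
  refine ⟨?_, ?_, ?_, ?_, ?_, ?_⟩ <;> (simp only [pf4, hx 0 1, hx 0 2, hx 0 3, hx 0 4, hx 0 5, hx 1 2, hx 1 3, hx 1 4,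
    hx 1 5, hx 2 3, hx 2 4, hx 2 5, hx 3 4, hx 3 5, hx 4 5]; try ring)

theorem yk_12 : pf4 x 3 4 0 1 = pf4 x 0 1 3 4 ∧
    pf4 x 3 4 0 2 = pf4 x 0 2 3 4 ∧
    pf4 x 3 4 0 5 = pf4 x 0 3 4 5 ∧
    pf4 x 3 4 1 2 = pf4 x 1 2 3 4 ∧
    pf4 x 3 4 1 5 = pf4 x 1 3 4 5 ∧
    pf4 x 3 4 2 5 = pf4 x 2 3 4 5 := by
  refine ⟨?_, ?_, ?_, ?_, ?_, ?_⟩ <;> (simp only [pf4, hx 0 1, hx 0 2, hx 0 3, hx 0 4, hx 0 5, hx 1 2, hx 1 3, hx 1 4,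
    hx 1 5, hx 2 3, hx 2 4, hx 2 5, hx 3 4, hx 3 5, hx 4 5]; try ring)

theorem yk_13 : pf4 x 3 5 0 1 = pf4 x 0 1 3 5 ∧
    pf4 x 3 5 0 2 = pf4 x 0 2 3 5 ∧
    pf4 x 3 5 0 4 = -pf4 x 0 3 4 5 ∧
    pf4 x 3 5 1 2 = pf4 x 1 2 3 5 ∧
    pf4 x 3 5 1 4 = -pf4 x 1 3 4 5 ∧
    pf4 x 3 5 2 4 = -pf4 x 2 3 4 5 := by
  refine ⟨?_, ?_, ?_, ?_, ?_, ?_⟩ <;> (simp only [pf4, hx 0 1, hx 0 2, hx 0 3, hx 0 4, hx 0 5, hx 1 2, hx 1 3, hx 1 4,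
    hx 1 5, hx 2 3, hx 2 4, hx 2 5, hx 3 4, hx 3 5, hx 4 5]; try ring)

theorem yk_14 : pf4 x 4 5 0 1 = pf4 x 0 1 4 5 ∧
    pf4 x 4 5 0 2 = pf4 x 0 2 4 5 ∧
    pf4 x 4 5 0 3 = pf4 x 0 3 4 5 ∧
    pf4 x 4 5 1 2 = pf4 x 1 2 4 5 ∧
    pf4 x 4 5 1 3 = pf4 x 1 3 4 5 ∧
    pf4 x 4 5 2 3 = pf4 x 2 3 4 5 := by
  refine ⟨?_, ?_, ?_, ?_, ?_, ?_⟩ <;> (simp only [pf4, hx 0 1, hx 0 2, hx 0 3, hx 0 4, hx 0 5, hx 1 2, hx 1 3, hx 1 4,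
    hx 1 5, hx 2 3, hx 2 4, hx 2 5, hx 3 4, hx 3 5, hx 4 5]; try ring)

end ring

theorem no_coincidence {τ K : Type*} [Field K] {m : MonomialOrder τ}
    (x : M6 (MvPolynomial τ K)) (hx : ∀ i j, x j i = -x i j) (k : Fin 15)
    (h0 : x (pp k) (qq k) ≠ 0) (h0' : GG x k ≠ 0)
    (h1 : ∀ i j : Fin 6, ((i, j) ≠ (pp k, qq k) ∧ (i, j) ≠ (qq k, pp k)) →
      Lt m (x i j) (m.toSyn (m.degree (x (pp k) (qq k)))))
    (h2 : ∀ l, l ≠ k → Lt m (GG x l) (m.toSyn (m.degree (GG x k)))) : False := by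
  have hco := co_ne k
  refine key x (pp k) (qq k) (co k 0) (co k 1) (co k 2) (co k 3) _ _ h0 rfl h0' rfl h1 hco.1 hco.2
    ?_ ?_ ?_ ?_ ?_ ?_
  · clear h1 h0 hco h0'
    fin_cases k
    · exact Lt.of_eq_or (Or.inl (yk_0 x hx).1) (h2 14 (by decide))
    · exact Lt.of_eq_or (Or.inr (yk_1 x hx).1) (h2 14 (by decide))
    · exact Lt.of_eq_or (Or.inl (yk_2 x hx).1) (h2 14 (by decide))
    · exact Lt.of_eq_or (Or.inl (yk_3 x hx).1) (h2 13 (by decide))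
    · exact Lt.of_eq_or (Or.inl (yk_4 x hx).1) (h2 12 (by decide))
    · exact Lt.of_eq_or (Or.inl (yk_5 x hx).1) (h2 14 (by decide))
    · exact Lt.of_eq_or (Or.inr (yk_6 x hx).1) (h2 14 (by decide))
    · exact Lt.of_eq_or (Or.inr (yk_7 x hx).1) (h2 13 (by decide))
    · exact Lt.of_eq_or (Or.inr (yk_8 x hx).1) (h2 12 (by decide))
    · exact Lt.of_eq_or (Or.inl (yk_9 x hx).1) (h2 14 (by decide))
    · exact Lt.of_eq_or (Or.inl (yk_10 x hx).1) (h2 13 (by decide))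
    · exact Lt.of_eq_or (Or.inl (yk_11 x hx).1) (h2 12 (by decide))
    · exact Lt.of_eq_or (Or.inl (yk_12 x hx).1) (h2 11 (by decide))
    · exact Lt.of_eq_or (Or.inl (yk_13 x hx).1) (h2 10 (by decide))
    · exact Lt.of_eq_or (Or.inl (yk_14 x hx).1) (h2 9 (by decide))
  · clear h1 h0 hco h0'
    fin_cases k
    · exact Lt.of_eq_or (Or.inl (yk_0 x hx).2.1) (h2 13 (by decide))
    · exact Lt.of_eq_or (Or.inr (yk_1 x hx).2.1) (h2 13 (by decide))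
    · exact Lt.of_eq_or (Or.inr (yk_2 x hx).2.1) (h2 11 (by decide))
    · exact Lt.of_eq_or (Or.inl (yk_3 x hx).2.1) (h2 11 (by decide))
    · exact Lt.of_eq_or (Or.inl (yk_4 x hx).2.1) (h2 10 (by decide))
    · exact Lt.of_eq_or (Or.inl (yk_5 x hx).2.1) (h2 13 (by decide))
    · exact Lt.of_eq_or (Or.inl (yk_6 x hx).2.1) (h2 11 (by decide))
    · exact Lt.of_eq_or (Or.inr (yk_7 x hx).2.1) (h2 11 (by decide))
    · exact Lt.of_eq_or (Or.inr (yk_8 x hx).2.1) (h2 10 (by decide))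
    · exact Lt.of_eq_or (Or.inl (yk_9 x hx).2.1) (h2 8 (by decide))
    · exact Lt.of_eq_or (Or.inr (yk_10 x hx).2.1) (h2 8 (by decide))
    · exact Lt.of_eq_or (Or.inr (yk_11 x hx).2.1) (h2 7 (by decide))
    · exact Lt.of_eq_or (Or.inl (yk_12 x hx).2.1) (h2 8 (by decide))
    · exact Lt.of_eq_or (Or.inl (yk_13 x hx).2.1) (h2 7 (by decide))
    · exact Lt.of_eq_or (Or.inl (yk_14 x hx).2.1) (h2 6 (by decide))
  · clear h1 h0 hco h0'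
    fin_cases k
    · exact Lt.of_eq_or (Or.inl (yk_0 x hx).2.2.1) (h2 12 (by decide))
    · exact Lt.of_eq_or (Or.inr (yk_1 x hx).2.2.1) (h2 12 (by decide))
    · exact Lt.of_eq_or (Or.inr (yk_2 x hx).2.2.1) (h2 10 (by decide))
    · exact Lt.of_eq_or (Or.inr (yk_3 x hx).2.2.1) (h2 9 (by decide))
    · exact Lt.of_eq_or (Or.inl (yk_4 x hx).2.2.1) (h2 9 (by decide))
    · exact Lt.of_eq_or (Or.inl (yk_5 x hx).2.2.1) (h2 12 (by decide))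
    · exact Lt.of_eq_or (Or.inl (yk_6 x hx).2.2.1) (h2 10 (by decide))
    · exact Lt.of_eq_or (Or.inl (yk_7 x hx).2.2.1) (h2 9 (by decide))
    · exact Lt.of_eq_or (Or.inr (yk_8 x hx).2.2.1) (h2 9 (by decide))
    · exact Lt.of_eq_or (Or.inl (yk_9 x hx).2.2.1) (h2 7 (by decide))
    · exact Lt.of_eq_or (Or.inl (yk_10 x hx).2.2.1) (h2 6 (by decide))
    · exact Lt.of_eq_or (Or.inr (yk_11 x hx).2.2.1) (h2 6 (by decide))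
    · exact Lt.of_eq_or (Or.inl (yk_12 x hx).2.2.1) (h2 5 (by decide))
    · exact Lt.of_eq_or (Or.inr (yk_13 x hx).2.2.1) (h2 5 (by decide))
    · exact Lt.of_eq_or (Or.inl (yk_14 x hx).2.2.1) (h2 5 (by decide))
  · clear h1 h0 hco h0'
    fin_cases k
    · exact Lt.of_eq_or (Or.inl (yk_0 x hx).2.2.2.1) (h2 11 (by decide))
    · exact Lt.of_eq_or (Or.inl (yk_1 x hx).2.2.2.1) (h2 8 (by decide))
    · exact Lt.of_eq_or (Or.inr (yk_2 x hx).2.2.2.1) (h2 8 (by decide))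
    · exact Lt.of_eq_or (Or.inl (yk_3 x hx).2.2.2.1) (h2 8 (by decide))
    · exact Lt.of_eq_or (Or.inl (yk_4 x hx).2.2.2.1) (h2 7 (by decide))
    · exact Lt.of_eq_or (Or.inl (yk_5 x hx).2.2.2.1) (h2 4 (by decide))
    · exact Lt.of_eq_or (Or.inr (yk_6 x hx).2.2.2.1) (h2 4 (by decide))
    · exact Lt.of_eq_or (Or.inl (yk_7 x hx).2.2.2.1) (h2 4 (by decide))
    · exact Lt.of_eq_or (Or.inl (yk_8 x hx).2.2.2.1) (h2 3 (by decide))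
    · exact Lt.of_eq_or (Or.inl (yk_9 x hx).2.2.2.1) (h2 4 (by decide))
    · exact Lt.of_eq_or (Or.inr (yk_10 x hx).2.2.2.1) (h2 4 (by decide))
    · exact Lt.of_eq_or (Or.inr (yk_11 x hx).2.2.2.1) (h2 3 (by decide))
    · exact Lt.of_eq_or (Or.inl (yk_12 x hx).2.2.2.1) (h2 4 (by decide))
    · exact Lt.of_eq_or (Or.inl (yk_13 x hx).2.2.2.1) (h2 3 (by decide))
    · exact Lt.of_eq_or (Or.inl (yk_14 x hx).2.2.2.1) (h2 2 (by decide))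
  · clear h1 h0 hco h0'
    fin_cases k
    · exact Lt.of_eq_or (Or.inl (yk_0 x hx).2.2.2.2.1) (h2 10 (by decide))
    · exact Lt.of_eq_or (Or.inl (yk_1 x hx).2.2.2.2.1) (h2 7 (by decide))
    · exact Lt.of_eq_or (Or.inr (yk_2 x hx).2.2.2.2.1) (h2 7 (by decide))
    · exact Lt.of_eq_or (Or.inr (yk_3 x hx).2.2.2.2.1) (h2 6 (by decide))
    · exact Lt.of_eq_or (Or.inl (yk_4 x hx).2.2.2.2.1) (h2 6 (by decide))
    · exact Lt.of_eq_or (Or.inl (yk_5 x hx).2.2.2.2.1) (h2 3 (by decide))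
    · exact Lt.of_eq_or (Or.inr (yk_6 x hx).2.2.2.2.1) (h2 3 (by decide))
    · exact Lt.of_eq_or (Or.inr (yk_7 x hx).2.2.2.2.1) (h2 2 (by decide))
    · exact Lt.of_eq_or (Or.inl (yk_8 x hx).2.2.2.2.1) (h2 2 (by decide))
    · exact Lt.of_eq_or (Or.inl (yk_9 x hx).2.2.2.2.1) (h2 3 (by decide))
    · exact Lt.of_eq_or (Or.inl (yk_10 x hx).2.2.2.2.1) (h2 2 (by decide))
    · exact Lt.of_eq_or (Or.inr (yk_11 x hx).2.2.2.2.1) (h2 2 (by decide))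
    · exact Lt.of_eq_or (Or.inl (yk_12 x hx).2.2.2.2.1) (h2 1 (by decide))
    · exact Lt.of_eq_or (Or.inr (yk_13 x hx).2.2.2.2.1) (h2 1 (by decide))
    · exact Lt.of_eq_or (Or.inl (yk_14 x hx).2.2.2.2.1) (h2 1 (by decide))
  · clear h1 h0 hco h0'
    fin_cases k
    · exact Lt.of_eq_or (Or.inl (yk_0 x hx).2.2.2.2.2) (h2 9 (by decide))
    · exact Lt.of_eq_or (Or.inl (yk_1 x hx).2.2.2.2.2) (h2 6 (by decide))
    · exact Lt.of_eq_or (Or.inl (yk_2 x hx).2.2.2.2.2) (h2 5 (by decide))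
    · exact Lt.of_eq_or (Or.inr (yk_3 x hx).2.2.2.2.2) (h2 5 (by decide))
    · exact Lt.of_eq_or (Or.inl (yk_4 x hx).2.2.2.2.2) (h2 5 (by decide))
    · exact Lt.of_eq_or (Or.inl (yk_5 x hx).2.2.2.2.2) (h2 2 (by decide))
    · exact Lt.of_eq_or (Or.inl (yk_6 x hx).2.2.2.2.2) (h2 1 (by decide))
    · exact Lt.of_eq_or (Or.inr (yk_7 x hx).2.2.2.2.2) (h2 1 (by decide))
    · exact Lt.of_eq_or (Or.inl (yk_8 x hx).2.2.2.2.2) (h2 1 (by decide))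
    · exact Lt.of_eq_or (Or.inl (yk_9 x hx).2.2.2.2.2) (h2 0 (by decide))
    · exact Lt.of_eq_or (Or.inr (yk_10 x hx).2.2.2.2.2) (h2 0 (by decide))
    · exact Lt.of_eq_or (Or.inl (yk_11 x hx).2.2.2.2.2) (h2 0 (by decide))
    · exact Lt.of_eq_or (Or.inl (yk_12 x hx).2.2.2.2.2) (h2 0 (by decide))
    · exact Lt.of_eq_or (Or.inr (yk_13 x hx).2.2.2.2.2) (h2 0 (by decide))
    · exact Lt.of_eq_or (Or.inl (yk_14 x hx).2.2.2.2.2) (h2 0 (by decide))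

theorem par3 (K : Type*) [Field K] [CharZero K] (alg3 : ALG3_S K) : PAR3_S K := by
  intro τ _ ε hε F hF hsg hPf Φ hΦ
  obtain ⟨mo⟩ := Sp4.exists_monomialOrder τ
  have hx : ∀ i j, F j i = -F i j := by
    intro i j
    have := congrFun (congrFun hF i) j
    rwa [Matrix.transpose_apply, Matrix.neg_apply] at this
  have hdiag : ∀ i, F i i = 0 := by
    intro i
    have h1 := hx i i
    have h2 : (2 : MvPolynomial τ K) * F i i = 0 := by linear_combination h1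
    have h3 : (2 : MvPolynomial τ K) ≠ 0 := by
      have : (2 : MvPolynomial τ K) = C (2 : K) := (map_ofNat C 2).symm
      rw [this, ne_eq, C_eq_zero]
      exact two_ne_zero
    exact (mul_eq_zero.1 h2).resolve_left h3
  have hpf4 : ∀ s a b c d, Degrees.sgnHom K (ε s) (pf4 F a b c d) =
      C ((sgI s a * sgI s b * sgI s c * sgI s d : ℤ) : K) * pf4 F a b c d := by
    intro s a b c d
    simp only [pf4, map_add, map_sub, map_mul, hsg, Int.cast_mul]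
    ring
  have hGs : ∀ s k, Degrees.sgnHom K (ε s) (GG F k) =
      C ((-(sgI s (pp k) * sgI s (qq k)) : ℤ) : K) * GG F k := by
    intro s k
    rw [GG, hpf4, sg_co]
  have hPs : ∀ s, Degrees.sgnHom K (ε s) (Pf F) = C ((-1 : ℤ) : K) * Pf F := by
    intro s
    rw [← sg_all s]
    simp only [Pf, map_add, map_sub, map_mul, hsg, hpf4, Int.cast_mul]
    ring
  have hF1 : ∀ s k, F (pp k) (qq k) ≠ 0 →
      Degrees.sgn (ε s) (mo.degree (F (pp k) (qq k))) = sgI s (pp k) * sgI s (qq k) :=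
    fun s k h => Degrees.sgn_degree mo (ε s) _ h _ (hsg s _ _)
  have hG1 : ∀ s k, GG F k ≠ 0 →
      Degrees.sgn (ε s) (mo.degree (GG F k)) = -(sgI s (pp k) * sgI s (qq k)) :=
    fun s k h => Degrees.sgn_degree mo (ε s) _ h _ (hGs s k)
  have hP1 : ∀ s, Degrees.sgn (ε s) (mo.degree (Pf F)) = -1 :=
    fun s => Degrees.sgn_degree mo (ε s) _ hPf _ (hPs s)
  obtain ⟨k, hk0, hk1, hk2, hk3⟩ := max_squares (m := mo) (fun k => F (pp k) (qq k))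
    (by
      intro i j hi hj hij h
      obtain ⟨s, hs1, hs2⟩ := sg_in i j hij
      have e1 := hF1 s i hi
      have e2 := hF1 s j hj
      rw [hs1] at e1
      rw [hs2] at e2
      rw [h, e2] at e1
      omega)
    (by
      by_contra hcon
      push Not at hcon
      apply hPf
      have h01 := hcon 0
      have h02 := hcon 1
      have h03 := hcon 2
      have h04 := hcon 3
      have h05 := hcon 4
      change F 0 1 = 0 at h01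
      change F 0 2 = 0 at h02
      change F 0 3 = 0 at h03
      change F 0 4 = 0 at h04
      change F 0 5 = 0 at h05
      rw [Pf, h01, h02, h03, h04, h05]
      ring)
  obtain ⟨l, hl0, hl1, hl2, hl3⟩ := max_squares (m := mo) (fun k => GG F k)
    (by
      intro i j hi hj hij h
      obtain ⟨s, hs1, hs2⟩ := sg_in i j hij
      have e1 := hG1 s i hi
      have e2 := hG1 s j hj
      rw [hs1] at e1
      rw [hs2] at e2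
      rw [h, e2] at e1
      omega)
    (by
      by_contra hcon
      push Not at hcon
      apply hPf
      have h01 := hcon 0
      have h02 := hcon 1
      have h03 := hcon 2
      have h04 := hcon 3
      have h05 := hcon 4
      change pf4 F 2 3 4 5 = 0 at h01
      change pf4 F 1 3 4 5 = 0 at h02
      change pf4 F 1 2 4 5 = 0 at h03
      change pf4 F 1 2 3 5 = 0 at h04
      change pf4 F 1 2 3 4 = 0 at h05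
      rw [Pf, h01, h02, h03, h04, h05]
      ring)
  rw [← s1_eq] at hk2 hk3
  rw [← s2_eq] at hl2 hl3
  have hkl : k ≠ l := by
    rintro rfl
    refine no_coincidence F hx k hk0 hl0 ?_ hl1
    rintro i j ⟨h1, h2⟩
    rcases lt_trichotomy i j with h | h | h
    · obtain ⟨k', rfl, rfl⟩ := pair_cases i j h
      apply hk1
      rintro rfl
      exact h1 rfl
    · subst h; rw [hdiag]; exact Lt.zero
    · obtain ⟨k', rfl, rfl⟩ := pair_cases j i h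
      rw [hx]
      apply Lt.neg
      apply hk1
      rintro rfl
      exact h2 rfl
  refine alg3 τ mo ε hε ![s1 F, s2 F, s3 F]
    ![mo.degree (F (pp k) (qq k)), mo.degree (GG F l), mo.degree (Pf F)] ?_ ?_ ?_ Φ hΦ
  · intro i
    fin_cases i
    · exact hk3
    · exact hl3
    · exact pow_ne_zero 2 hPf
  · intro i
    fin_cases i
    · exact hk2
    · exact hl2
    · exact mo.degree_pow _ _
  · intro b hb
    have hb' : ∀ s, (sgI s (pp k) * sgI s (qq k)) ^ b 0 *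
        (-(sgI s (pp l) * sgI s (qq l))) ^ b 1 * (-1) ^ b 2 = 1 := by
      intro s
      have := hb s
      rw [Fin.prod_univ_three] at this
      change Degrees.sgn (ε s) (mo.degree (F (pp k) (qq k))) ^ b 0 *
        Degrees.sgn (ε s) (mo.degree (GG F l)) ^ b 1 *
        Degrees.sgn (ε s) (mo.degree (Pf F)) ^ b 2 = 1 at this
      rwa [hF1 s k hk0, hG1 s l hl0, hP1 s] at this
    obtain ⟨s, hs1, hs2⟩ := sg_out k l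
    have e1 := hb' s
    obtain ⟨s', hs1', hs2'⟩ := sg_in k l hkl
    have e2 := hb' s'
    obtain ⟨s'', hs1'', hs2''⟩ := sg_in l k hkl.symm
    have e3 := hb' s''
    rw [hs1, hs2, one_pow, one_mul] at e1
    rw [hs1', hs2'] at e2
    rw [hs1'', hs2'', neg_neg, one_pow, one_pow, one_mul, one_mul] at e3
    rw [e3, mul_one] at e1 e2
    rw [e1, mul_one] at e2
    have hev : ∀ n : ℕ, (-1 : ℤ) ^ n = 1 → Even n := by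
      intro n hn
      rcases Nat.even_or_odd n with h | h
      · exact h
      · rw [h.neg_one_pow] at hn; omega
    intro i
    fin_cases i
    · exact hev _ e2
    · exact hev _ e1
    · exact hev _ e3

end Pool.Agent.Lib.MP_d55432_al.SIX.H23
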